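import Pool.Agent.L0h31.ZB.Z3

/-!
Zero in the spectrum for finite aspherical complexes `M` whose fundamental group `G` is a duality
group with a boundary complex: the dualising module `H^m(G; ℤ[G])` is the top reduced homology of
a `G`-complex `T` (which is far from acyclic).

`X : FinRes G` is the cellular chain complex of the universal cover of a finite aspherical complex
`M` with fundamental group `G` (`Pool.Agent.H919R4.ZS.Defs`), `X.len` is the dimension of `M`,
`X.homology (toRed G) i` is `H_i(M; C*_r(G))` and `X.cohomology k` (the kernel of `X.cobd k` modulo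
`X.coboundaries k`) is `H^k(G; ℤ[G])`. The group `G` acts on it by right multiplication. The
complex `T` is given by `GComplex` and its reduced cycles by `GComplex.cycles`
(`Pool.Agent.L0h31.ZB.Z3`).

Examples (not formalised here).
(a) `d = 0`: then `T` is a disjoint union of orbits `G/S` and the condition says that `G` with the
subgroups `S` is an orientable Poincaré duality pair of dimension `m + 1` (Bieri-Eckmann). For
instance `M` is homotopy equivalent to a compact orientable aspherical manifold of dimension `m + 1`
with non-empty boundary whose boundary components are aspherical and `π₁`-injective, and the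
subgroups `S` are their fundamental groups. The conditions on the other stabilisers are empty. So if
one boundary component `B` satisfies `H_j(B; C*_r(π₁(B))) ≠ 0` for some `j`, then so does `M`, in
some degree. This applies to all such manifolds of dimension four, since the conjecture holds for
Poincaré duality groups of dimension three.
(b) `G` is a torsion-free arithmetic group of `ℚ`-rank `d + 1`, and `T` is the Tits building
(Borel-Serre); the stabilisers are the intersections of `G` with the parabolic `ℚ`-subgroups.
(c) `G` is a torsion-free subgroup of finite index in a mapping class group, and `T` is the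
complex of curves (Harer).

Proof. If `H_*(M; C*_r(G)) = 0`, then the dual of the cellular chain complex is acyclic with
coefficients in `C*_r(G)` too, by the involution of `C*_r(G)`, so `Tor_*(D, C*_r(G)) = 0` for
`D = H^m(G; ℤ[G])` and also for `ℤ`. By the exact sequence
`0 → D → C_d(T) → ⋯ → C_0(T) → ℤ → 0` the spectral sequence with first page
`Tor_q(C_p(T), C*_r(G))`, which is given by the stabilisers, converges to zero, but the term of the
theorem survives. The long exact sequences and the permutation modules are those of the
starting file `ContractibleActions`.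
-/

set_option autoImplicit false

namespace Pool.Agent.Results.MP_9f173d_gt.BoundaryComplexes

open Pool.Agent.H919R4.ZS (FinRes toRed)
open Pool.Agent.TH38.CX (Acyc)
open Pool.Agent.L0h31.ZB (GComplex)

variable {G : Type} [Group G]

/-- The complex `T` is not empty and its reduced homology vanishes in the degrees below `d`: the
reduced cycles are the boundaries. -/
def Connected (T : GComplex G) (d : ℕ) : Prop :=
  Nonempty (T.E 0) ∧ ∀ i < d, ∀ x : T.E i →₀ ℤ, x ∈ T.cycles i ↔ ∃ y, T.bd i y = x

/-- The cochains of degree `m` with coefficients in `ℤ[G]`. -/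
abbrev Cochain (X : FinRes G) (m : ℕ) : Type := Fin (X.n m) → MonoidAlgebra ℤ G

/-- The right translate `y · g⁻¹` of the cochain `y`. -/
noncomputable def translate {X : FinRes G} {m : ℕ} (g : G) (y : Cochain X m) : Cochain X m :=
  fun b => y b * MonoidAlgebra.single g⁻¹ 1

/-- `p` is an additive map from the cochains of degree `m` to the `d`-chains of `T`, whose image is
the group of reduced `d`-cycles and whose kernel is the group of coboundaries, and `p(y · g⁻¹)` is
`g · p(y)`. If all cochains of degree `m` are cocycles, then `p` induces an isomorphism of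
`H^m(G; ℤ[G])` with the group of reduced `d`-cycles of `T` which commutes with the action of `G`. -/
structure IsTop (X : FinRes G) (m : ℕ) (T : GComplex G) (d : ℕ) (p : Cochain X m → (T.E d →₀ ℤ)) :
    Prop where
  add : ∀ y z, p (y + z) = p y + p z
  image : ∀ x, x ∈ T.cycles d ↔ ∃ y, p y = x
  kernel : ∀ y, p y = 0 ↔ y ∈ X.coboundaries m
  equivariant : ∀ (g : G) (y : Cochain X m), p (translate g y) = (p y).mapDomain (fun e => g • e)

/-- `X` has length at most `m` (so all cochains of degree `m` are cocycles), `H^k(G; ℤ[G]) = 0` for
`k < m`, and the reduced homology of the `d`-skeleton of `T` is concentrated in degree `d` and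
isomorphic to `H^m(G; ℤ[G])` as a `G`-module. -/
def IsBoundary (X : FinRes G) (m : ℕ) (T : GComplex G) (d : ℕ) : Prop :=
  X.len ≤ m ∧ (∀ k < m, Subsingleton (X.cohomology k)) ∧ Connected T d ∧
    ∃ p : Cochain X m → (T.E d →₀ ℤ), IsTop X m T d p

/-- There are finitely many orbits of `i`-cells of `T` for `i ≤ d`, represented by `rep i a`,
`a < c i`, and `Y i a` is a finite free resolution for the stabiliser of `rep i a`. -/
structure Resolved (T : GComplex G) (d : ℕ) where
  c : ℕ → ℕ
  rep : ∀ i, Fin (c i) → T.E i
  orbits : ∀ i ≤ d, ∀ e : T.E i, ∃! a, e ∈ MulAction.orbit G (rep i a)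
  Y : ∀ i (a : Fin (c i)), FinRes (MulAction.stabilizer G (rep i a))

/-- `H_k(S; C*_r(S)) ≠ 0` for the stabiliser `S` of some `i`-cell. -/
def Resolved.NonzeroAt {T : GComplex G} {d : ℕ} (R : Resolved T d) (i k : ℕ) : Prop :=
  ∃ a, Nontrivial ((R.Y i a).homology (toRed _) k)

/-- `H_j(S; C*_r(S)) = 0` for all `j ≤ k`, or `S` has dimension less than `k`, for the stabilisers `S`
of all `i`-cells. -/
def Resolved.AcyclicTo {T : GComplex G} {d : ℕ} (R : Resolved T d) (i k : ℕ) : Prop :=
  ∀ a, Acyc (R.Y i a) k

/-- Let `X` be a finite free resolution for `G` of length at most `m`, with `H^k(G; ℤ[G]) = 0` for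
all `k < m`. Let `T` be a non-empty `G`-complex whose reduced homology vanishes in the degrees below
`d`, and whose group of reduced `d`-cycles is isomorphic to `H^m(G; ℤ[G])` as a `G`-module (so, up to
dimension `d`, the complex `T` has only the reduced homology `H^m(G; ℤ[G])`, in degree `d`). Let
there be finitely many orbits of cells in the dimensions up to `d`, with stabilisers which have
finite free resolutions. Suppose that `H_(N-i₀)(S; C*_r(S)) ≠ 0` for the stabiliser `S` of some
`i₀`-cell, where `i₀ ≤ d`, that the stabilisers of the `i`-cells are acyclic up to degree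
`N - 1 - i` (or of dimension less than `N - 1 - i`) for all `i < i₀`, and up to degree `N + 1 - i` (or
of dimension less than `N + 1 - i`) for all `i` with `i₀ < i ≤ d`. Then `H_i(M; C*_r(G)) ≠ 0` for some
`i ≤ m`.

If `d = 0`, then `i₀ = 0` and the only condition is that `H_N(S; C*_r(S)) ≠ 0` for some `N` and for
the stabiliser `S` of some point of `T`. -/
theorem result (G : Type) [Group G] (m d : ℕ) (X : FinRes G) (T : GComplex G)
    (hT : IsBoundary X m T d) (R : Resolved T d) (N i₀ : ℕ) (h0 : i₀ ≤ N) (hi₀ : i₀ ≤ d)
    (h1 : R.NonzeroAt i₀ (N - i₀)) (h2 : ∀ i < i₀, R.AcyclicTo i (N - 1 - i))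
    (h3 : ∀ i, i₀ < i → i ≤ d → i ≤ N + 1 → R.AcyclicTo i (N + 1 - i)) :
    ∃ i ≤ m, Nontrivial (X.homology (toRed G) i) := by
  obtain ⟨hlen, hcoh, ⟨hne, hex⟩, p, hp⟩ := hT
  obtain ⟨a₀, ha₀⟩ := h1
  have hker : ∀ y : Cochain X m, y ∈ (X.cobd m).ker := by
    intro y
    have h4 : IsEmpty (Fin (X.n (m + 1))) := by
      rw [X.n_eq_zero (m + 1) (by omega)]
      infer_instance
    exact funext fun b => h4.elim b
  have hp0 : p 0 = 0 := by
    have h5 := hp.add 0 0
    rw [add_zero] at h5
    exact left_eq_add.1 h5
  let P : (X.cobd m).ker →+ T.cycles d :=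
    { toFun := fun y => ⟨p y.1, (hp.image _).2 ⟨y.1, rfl⟩⟩
      map_zero' := Subtype.ext hp0
      map_add' := fun y z => Subtype.ext (hp.add y.1 z.1) }
  have hP1 : Function.Surjective P := by
    rintro ⟨x, hx⟩
    obtain ⟨y, hy⟩ := (hp.image x).1 hx
    exact ⟨⟨y, hker y⟩, Subtype.ext hy⟩
  have e1 : P.ker = (X.coboundaries m).addSubgroupOf (X.cobd m).ker := by
    ext y
    rw [AddMonoidHom.mem_ker, AddSubgroup.mem_addSubgroupOf, ← hp.kernel]
    exact ⟨fun h => congrArg Subtype.val h, fun h => Subtype.ext h⟩
  let θ : X.cohomology m ≃+ T.cycles d :=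
    (QuotientAddGroup.quotientAddEquivOfEq e1).symm.trans
      (QuotientAddGroup.quotientKerEquivOfSurjective P hP1)
  have hθ : ∀ y : (X.cobd m).ker, θ (QuotientAddGroup.mk y) = P y := fun y => rfl
  refine Pool.Agent.L0h31.ZB.main_boundary m X hlen hcoh T d hne hex θ ?_ R.c R.rep R.orbits R.Y
    N i₀ h0 hi₀ a₀ ha₀ h2 h3
  intro g y y' h
  rw [hθ, hθ]
  have h6 : y'.1 = translate g y.1 := funext h
  change p y'.1 = _
  rw [h6]
  exact hp.equivariant g y.1

end Pool.Agent.Results.MP_9f173d_gt.BoundaryComplexes
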