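import Pool.Agent.L0h31.ZB.Z11

/-!
Zero in the spectrum for finite aspherical complexes whose fundamental group `G` acts on a
contractible complex such that the stabiliser of one vertex is a Poincaré duality group which
satisfies the conjecture, and the stabilisers of the cells of positive dimension are small.

`X : FinRes G` is the cellular chain complex of the universal cover of a finite aspherical complex
`M` with fundamental group `G` (`Pool.Agent.H919R4.ZS.Defs`), `X.len` is the dimension of `M` and
`X.homology (toRed G) i` is `H_i(M; C*_r(G))`.  `AcyclicGComplex` (`Pool.Agent.TH38.CX.Syz`) is the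
cellular chain complex of an acyclic complex with a cellular action of `G` (a stabiliser of a cell
fixes it pointwise).

`PDim X m` (`Pool.Agent.L0h31.ZB.Z9`): the group of the resolution `X` is a Poincaré duality group of
dimension `m` (orientable or not), `X.len ≤ m`.  `Action G` (`Pool.Agent.L0h31.ZB.Z11`): `G` acts on an
acyclic complex with finitely many orbits of cells, whose stabilisers have the finite free
resolutions `A.X i a`.  `NonAcyclic X`: `H_i(G; C*_r(G)) ≠ 0` for some `i`.

The proof uses the cohomology spectral sequence of the action: by Poincaré duality the first degree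
in which `H_*(S; C*_r(S))` does not vanish, which is at most `m / 2`, gives the last degree in which
`H^*(S; C*_r(G))` does not vanish; it is at least `t`, and no differential can start there.  The
other stabilisers of vertices are arbitrary.
-/

set_option autoImplicit false

namespace Pool.Agent.Results.MP_9f173d_gt.DualityVertexGroup

open Pool.Agent.H919R4.ZS (FinRes toRed)
open Pool.Agent.L0h31.ZB (PDim Action NonAcyclic)

/-- Let `G` act on an acyclic complex of any dimension with finitely many orbits of cells, whose
stabilisers have finite free resolutions. Let one of the stabilisers `S` of the vertices be a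
Poincaré duality group of dimension `m` with `H_j(S; C*_r(S)) ≠ 0` for some `j`, and let `t ≤ m - j` or
`t ≤ (m + 1) / 2`. Suppose that for `i ≥ 1` every stabiliser `T` of an `i`-cell has a resolution of
length at most `t - i`, or is a Poincaré duality group of a dimension `m'` with
`H_l(T; C*_r(T)) = 0` for all `l < m' + i - t`. Then `G` has a finite free resolution, and
`H_i(X; C*_r(G)) ≠ 0` for some `i`, for every such resolution `X`. -/
theorem result (G : Type) [Group G] (A : Action G) (a : Fin (A.c 0)) (m j t : ℕ)
    (hm : PDim (A.X 0 a) m) (hj : Nontrivial ((A.X 0 a).homology (toRed _) j))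
    (ht : t + j ≤ m ∨ 2 * t ≤ m + 1)
    (h : ∀ i, 1 ≤ i → ∀ b, (A.X i b).len + i ≤ t ∨ ∃ m', PDim (A.X i b) m' ∧
      ∀ l, l + t < m' + i → Subsingleton ((A.X i b).homology (toRed _) l)) :
    Nonempty (FinRes G) ∧ ∀ X : FinRes G, NonAcyclic X :=
  Pool.Agent.L0h31.ZB.vertex_pd2 A a m j t hm hj ht h

end Pool.Agent.Results.MP_9f173d_gt.DualityVertexGroup
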