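import Pool.Agent.L0h31.ZB.Z11

/-!
Zero in the spectrum for finite aspherical complexes whose fundamental group is the fundamental
group of a finite graph of Poincaré duality groups, the edge groups having smaller dimension than
the vertex groups.

`X : FinRes G` is the cellular chain complex of the universal cover of a finite aspherical complex
`M` with fundamental group `G` (`Pool.Agent.H919R4.ZS.Defs`), `X.len` is the dimension of `M` and
`X.homology (toRed G) i` is `H_i(M; C*_r(G))`.  `AcyclicGComplex` (`Pool.Agent.TH38.CX.Syz`) is the
cellular chain complex of an acyclic complex with a cellular action of `G` (a stabiliser of a cell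
fixes it pointwise); for dimension at most one it is a tree on which `G` acts without inversions.

`PDim X m` (`Pool.Agent.L0h31.ZB.Z9`): the group of the resolution `X` is a Poincaré duality group of
dimension `m` (orientable or not), `X.len ≤ m`.  `Action G` (`Pool.Agent.L0h31.ZB.Z11`): `G` acts on an
acyclic complex with finitely many orbits of cells, whose stabilisers have the finite free
resolutions `A.X i a`.  `NonAcyclic X`: `H_i(G; C*_r(G)) ≠ 0` for some `i`.

Example (not formalised here): a finite graph of spaces whose vertex spaces are closed aspherical
manifolds and whose edge spaces are closed aspherical manifolds of smaller dimension with injective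
maps on the fundamental groups.  By the starting file `PolycyclicCodimensionTwo` of MP_48737f_gt,
Poincaré duality groups of dimension at most three satisfy the conjecture, so the result is
unconditional if one of the manifolds has dimension at most three, for instance if `4`-manifolds are
glued along `3`-manifolds.
-/

set_option autoImplicit false

namespace Pool.Agent.Results.MP_9f173d_gt.GraphsOfPDGroups

open Pool.Agent.H919R4.ZS (FinRes toRed)
open Pool.Agent.TH38.CX (AcyclicGComplex)
open Pool.Agent.L0h31.ZB (PDim Action NonAcyclic)

/-- `G` acts on a tree, the stabiliser of the vertex `rep 0 a` is a Poincaré duality group of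
dimension `k a`, and every stabiliser of an edge is a Poincaré duality group of a dimension less
than all the `k a`, or has a resolution of length less than `k a / 2` for all `a`. -/
def GraphOfPD {G : Type} [Group G] (A : Action G) : Prop :=
  A.Y.len ≤ 1 ∧ ∃ k : Fin (A.c 0) → ℕ, (∀ a, PDim (A.X 0 a) (k a)) ∧
    ∀ b : Fin (A.c 1), (∃ m, PDim (A.X 1 b) m ∧ ∀ a, m < k a) ∨ ∀ a, 2 * (A.X 1 b).len < k a

/-- Let `G` act on a tree with finitely many orbits of vertices and edges. Let the stabilisers of the
vertices be Poincaré duality groups, and let each stabiliser of an edge be a Poincaré duality group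
of smaller dimension (smaller than the dimensions of all the stabilisers of vertices), or of length
less than half of these dimensions. Then `G` has a finite free resolution, and for every such
resolution `X` the following are equivalent: `H_i(X; C*_r(G)) ≠ 0` for some `i`; and
`H_j(S; C*_r(S)) ≠ 0` for one of the stabilisers `S` of the vertices and edges and some `j`. -/
theorem result (G : Type) [Group G] (A : Action G) (hA : GraphOfPD A) :
    Nonempty (FinRes G) ∧ ∀ X : FinRes G, NonAcyclic X ↔ ∃ i a, NonAcyclic (A.X i a) := by
  refine ⟨Pool.Agent.L0h31.ZB.exists_finRes A.Y A.c A.rep A.hrep A.X, fun X => ⟨?_, ?_⟩⟩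
  · intro h
    by_contra hcon
    push Not at hcon
    obtain ⟨i, hi⟩ := h
    refine not_nontrivial_iff_subsingleton.2
      (Pool.Agent.L0h31.ZB.all_acyclic A.Y A.c A.rep A.hrep A.X (fun i a j => ?_) X i) hi
    rw [Pool.Agent.TH38.ZT.exAt_iff]
    exact not_nontrivial_iff_subsingleton.1 fun h1 => hcon i a ⟨j, h1⟩
  · rintro ⟨i, a, j, hj⟩
    obtain ⟨hY, k, hk, he⟩ := hA
    exact Pool.Agent.L0h31.ZB.tree_pd A.Y A.c A.rep A.hrep A.X hY k hk
      (fun b => (he b).imp_right fun h a => by have := h a; omega) ⟨i, a, j, hj⟩ X

end Pool.Agent.Results.MP_9f173d_gt.GraphsOfPDGroups
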